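import Pool.Agent.V1198.WMP.James2
import Pool.Agent.V1198.WMP.Reflexive
import Pool.Agent.H825R3.Seq

/-!
# Domains with the weak maximizing property for all ranges are finite-dimensional

If `(E, F)` has the weak maximizing property for every Banach space `F`, then every continuous
seminorm on `E` that has a maximizing sequence which is not weakly null attains its supremum on the
unit sphere.

* If `E` is reflexive and infinite-dimensional, there is a weak* null sequence of norm one
  functionals `u n`. Seminorms `sup α_n (q + b |u n|)` show that `q + b |u n|` has norm less than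
  one for some large `n` if `q` has norm less than one and `b < 1`. Hence there is a subsequence
  with `∑ b_k |u_k| ≤ ‖·‖`, `b_k → 1`, and the functional `∑ b_k² u_k` does not attain its norm.
* If `E` is not reflexive, James' sequences and his minimization procedure give functionals `Y j`
  and a functional `G` such that the seminorm `limsup |G - Y j|` does not attain its supremum on the
  unit sphere, although it is larger than one, which excludes weakly null maximizing sequences.
-/

set_option autoImplicit false

namespace Pool.Agent.Results.MP_479f73_an.FiniteDimensional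

open Filter Topology Pool.Agent.V1198.WMP

universe u v

/-- Let `E` be a Banach space over `𝕜 = ℝ` or `ℂ` such that the pair `(E, F)` has the weak
maximizing property for every Banach space `F` over `𝕜`. Then `E` is finite-dimensional. -/
theorem result (𝕜 : Type v) [RCLike 𝕜] (E : Type u) [NormedAddCommGroup E] [NormedSpace 𝕜 E]
    [CompleteSpace E]
    (h : ∀ (F : Type u) [NormedAddCommGroup F] [NormedSpace 𝕜 F] [CompleteSpace F], WMP 𝕜 E F) :
    FiniteDimensional 𝕜 E := by
  by_contra hfin
  have H : SW 𝕜 E := fun p S hp x hx hlim hw => wmp_seminorm h p hp x hx hlim hw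
  let _ : NormedSpace ℝ E := NormedSpace.restrictScalars ℝ 𝕜 E
  have _ : IsScalarTower ℝ 𝕜 E := RestrictScalars.isScalarTower ℝ 𝕜 E
  by_cases hR : Function.Surjective (NormedSpace.inclusionInDoubleDual ℝ E)
  · have hfin' : ¬ FiniteDimensional ℝ E := by
      intro hf
      exact hfin (Module.Finite.of_restrictScalars_finite ℝ 𝕜 E)
    obtain ⟨y, hy1, hy2⟩ := exists_null_of_reflexive hfin' hR
    refine no_null H (u := fun n => (y n).extendRCLike) (fun n => ?_) fun x => ?_
    · rw [StrongDual.norm_extendRCLike, hy1]
    · simp_rw [StrongDual.extendRCLike_apply]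
      have h1 : Tendsto (fun n => ((y n x : ℝ) : 𝕜)) atTop (𝓝 ((0 : ℝ) : 𝕜)) :=
        (RCLike.continuous_ofReal.tendsto _).comp (hy2 x)
      have h2 : Tendsto (fun n => ((y n ((RCLike.I : 𝕜) • x) : ℝ) : 𝕜)) atTop (𝓝 ((0 : ℝ) : 𝕜)) :=
        (RCLike.continuous_ofReal.tendsto _).comp (hy2 _)
      have h3 := h1.sub (h2.const_mul (RCLike.I : 𝕜))
      simpa using h3
  · obtain ⟨x, f, hx, hf, h0, h1⟩ := Pool.Agent.H825R3.james_seq hR (θ := 9 / 10) (δ := 1 / 10)
      (by norm_num) (by norm_num) (by norm_num)
    refine no_james H (F := fun n => (f n).extendRCLike) (fun n => ?_) hx (fun n k hk => ?_)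
      fun n k hk => ?_
    · rw [StrongDual.norm_extendRCLike]; exact hf n
    · rw [StrongDual.re_extendRCLike_apply]; exact h0 n k hk
    · rw [StrongDual.re_extendRCLike_apply]
      have := (abs_le.mp (h1 n k hk)).1
      linarith

end Pool.Agent.Results.MP_479f73_an.FiniteDimensional
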